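import Mathlib
import Pool.Agent.H.MP_510a26_co.Fam

namespace Pool.Agent.Results.MP_510a26_co.All

open Pool.Agent.H.MP_510a26_co

theorem result (h : ℕ) : ∃ n : ℕ, 1 ≤ n ∧ ∃ L M : Fin n → Fin n → Fin n,
    Latin L ∧ Latin M ∧ Orth L M ∧ Homog h L ∧ Homog h M := by
  obtain ⟨α, _, _, hg⟩ := good_all (h + 1) (by omega)
  obtain ⟨L, M, a1, a2, a3, a4, a5⟩ := good_iso hg (Finite.equivFin α).symm
  exact ⟨Nat.card α, Nat.card_pos, L, M, a1, a2, a3, homog_of_cnt a1 a4, homog_of_cnt a2 a5⟩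

end Pool.Agent.Results.MP_510a26_co.All
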